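import Pool.Agent.Helper39.Uct.Goals3

/-!
MP_d97caa_an, packet CRZ: the matrix algebra is the crossed product by the shift.
-/

set_option autoImplicit false

open scoped ComplexOrder

namespace Pool.Agent.Helper3.Uct2

open Pool.Agent.Helper39.Uct Pool.Agent.Helper39.Uct.Fib Pool.Agent.Helper10.Uct

/-- A *-homomorphism as a linear map. -/
def lin {A B : Type} [NonUnitalCStarAlgebra A] [NonUnitalCStarAlgebra B] (Φ : A →⋆ₙₐ[ℂ] B) :
    A →ₗ[ℂ] B where
  toFun := Φ
  map_add' := map_add Φ
  map_smul' := map_smul Φ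

@[simp] theorem lin_apply {A B : Type} [NonUnitalCStarAlgebra A] [NonUnitalCStarAlgebra B]
    (Φ : A →⋆ₙₐ[ℂ] B) (x : A) : lin Φ x = Φ x := rfl

theorem cont_hom {A B : Type} [NonUnitalCStarAlgebra A] [NonUnitalCStarAlgebra B]
    (Φ : A →⋆ₙₐ[ℂ] B) : Continuous Φ :=
  AddMonoidHomClass.continuous_of_bound Φ 1 fun x => by
    simpa using NonUnitalStarAlgHom.norm_apply_le Φ x

theorem cont_iso {E F : Type} [NormedAddCommGroup E] [NormedSpace ℂ E] [NormedAddCommGroup F]
    [NormedSpace ℂ F] (R : E →ₗ[ℂ] F) (h : ∀ x, ‖R x‖ = ‖x‖) : Continuous R :=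
  (LinearIsometry.mk R h).continuous

section mat

variable {B E : Type} [NonUnitalCStarAlgebra B] [NonUnitalCStarAlgebra E]
  {e : ℤ → ℤ → B →ₗ[ℂ] E}

/-- The diagonal embeddings. -/
def diag (he : MatSys e) (i : ℤ) : B →⋆ₙₐ[ℂ] E where
  toFun := e i i
  map_smul' := fun c x => (e i i).map_smul c x
  map_zero' := (e i i).map_zero
  map_add' := (e i i).map_add
  map_mul' := fun x y => (he.mul i i i x y).symm
  map_star' := fun x => (he.star i i x).symm

theorem diag_inj (he : MatSys e) (i : ℤ) : Function.Injective (diag he i) := by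
  intro x y h
  have h1 : e i i (x - y) = 0 := by
    rw [map_sub, sub_eq_zero]; exact h
  exact sub_eq_zero.1 (he.inj i i _ h1)

theorem norm_e (he : MatSys e) (i j : ℤ) (b : B) : ‖e i j b‖ = ‖b‖ := by
  have h1 : ‖e i j b‖ * ‖e i j b‖ = ‖b‖ * ‖b‖ := by
    rw [← CStarRing.norm_star_mul_self, he.star, he.mul, ← CStarRing.norm_star_mul_self]
    exact NonUnitalStarAlgHom.norm_map (diag he j) (diag_inj he j) (star b * b)
  exact (mul_self_inj (norm_nonneg _) (norm_nonneg _)).1 h1

theorem ext_lin (he : MatSys e) {F : Type} [NormedAddCommGroup F] [NormedSpace ℂ F]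
    {f g : E →ₗ[ℂ] F} (hf : Continuous f) (hg : Continuous g)
    (h : ∀ i j b, f (e i j b) = g (e i j b)) (x : E) : f x = g x := by
  have h1 : (⨆ i, ⨆ j, LinearMap.range (e i j)) ≤ LinearMap.eqLocus f g := by
    refine iSup_le fun i => iSup_le fun j => ?_
    rintro _ ⟨b, rfl⟩
    exact h i j b
  have h2 : IsClosed (LinearMap.eqLocus f g : Set E) := isClosed_eq hf hg
  have h3 := Submodule.topologicalClosure_minimal _ h1 h2
  rw [he.dense] at h3
  exact h3 (Submodule.mem_top (x := x))

theorem dense_of (he : MatSys e) {e' : ℤ → ℤ → B →ₗ[ℂ] E}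
    (h : ∀ i j b, ∃ i' j' b', e' i' j' b' = e i j b) :
    (⨆ i, ⨆ j, LinearMap.range (e' i j)).topologicalClosure = ⊤ := by
  rw [← top_le_iff, ← he.dense]
  apply Submodule.topologicalClosure_mono
  refine iSup_le fun i => iSup_le fun j => ?_
  rintro _ ⟨b, rfl⟩
  obtain ⟨i', j', b', hb'⟩ := h i j b
  rw [← hb']
  exact Submodule.mem_iSup_of_mem i' (Submodule.mem_iSup_of_mem j' ⟨b', rfl⟩)

theorem shift_sys (he : MatSys e) (n : ℤ) : MatSys (fun i j => e (i + n) (j + n)) where
  mul := fun i j k b c => he.mul _ _ _ b c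
  mul0 := fun i j k l b c h => he.mul0 _ _ _ _ b c (by omega)
  star := fun i j b => he.star _ _ b
  inj := fun i j b h => he.inj _ _ b h
  dense := dense_of he fun i j b => ⟨i - n, j - n, b, by
    simp only [sub_add_cancel]⟩

/-- The matrix units twisted by a gauge automorphism. -/
noncomputable def tw (e : ℤ → ℤ → B →ₗ[ℂ] E) (z : Circle) (γ : B →⋆ₙₐ[ℂ] B) (i j : ℤ) : B →ₗ[ℂ] E where
  toFun := fun b => ((z : ℂ) ^ (i - j)) • e i j (γ b)
  map_add' := fun x y => by rw [map_add, map_add, smul_add]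
  map_smul' := fun c x => by
    rw [map_smul, map_smul, RingHom.id_apply, smul_comm]

theorem star_zp (z : Circle) (m : ℤ) : star ((z : ℂ) ^ m) = (z : ℂ) ^ (-m) := by
  rw [star_zpow₀]
  have : star (z : ℂ) = (z : ℂ)⁻¹ := by
    rw [← Circle.coe_inv, Circle.coe_inv_eq_conj]
    rfl
  rw [this, inv_zpow, zpow_neg]

theorem tw_sys (he : MatSys e) (z : Circle) (γ : B →⋆ₙₐ[ℂ] B) (hγ : Function.Bijective γ) :
    MatSys (tw e z γ) where
  mul := fun i j k b c => by
    show ((z : ℂ) ^ (i - j)) • e i j (γ b) * ((z : ℂ) ^ (j - k)) • e j k (γ c) =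
      ((z : ℂ) ^ (i - k)) • e i k (γ (b * c))
    rw [smul_mul_smul_comm, he.mul, map_mul γ, ← zpow_add₀ z.coe_ne_zero]
    congr 2
    ring
  mul0 := fun i j k l b c h => by
    show ((z : ℂ) ^ (i - j)) • e i j (γ b) * ((z : ℂ) ^ (k - l)) • e k l (γ c) = 0
    rw [smul_mul_smul_comm, he.mul0 i j k l _ _ h, smul_zero]
  star := fun i j b => by
    show star (((z : ℂ) ^ (i - j)) • e i j (γ b)) = ((z : ℂ) ^ (j - i)) • e j i (γ (star b))
    rw [star_smul, he.star, map_star γ, star_zp, neg_sub]
  inj := fun i j b h => by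
    have h1 : ((z : ℂ) ^ (i - j)) • e i j (γ b) = 0 := h
    rcases smul_eq_zero.1 h1 with h2 | h2
    · exact absurd h2 (zpow_ne_zero _ z.coe_ne_zero)
    · exact (map_eq_zero_iff γ hγ.1).1 (he.inj _ _ _ h2)
  dense := dense_of he fun i j b => by
    obtain ⟨b', hb'⟩ := hγ.2 b
    refine ⟨i, j, ((z : ℂ) ^ (j - i)) • b', ?_⟩
    show ((z : ℂ) ^ (i - j)) • e i j (γ (((z : ℂ) ^ (j - i)) • b')) = e i j b
    rw [map_smul, map_smul, hb', smul_smul, ← zpow_add₀ z.coe_ne_zero]
    have : i - j + (j - i) = 0 := by ring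
    rw [this, zpow_zero, one_smul]

end mat

/-- Sums of powers of roots of unity. -/
theorem root_sum {N : ℕ} (hN : 0 < N) : ∃ ζ : Circle, ∀ n : ℤ, n ≠ 0 → |n| < N →
    ∑ k ∈ Finset.range N, (((ζ ^ k : Circle) : ℂ) ^ n) = 0 := by
  have hp := Complex.isPrimitiveRoot_exp N hN.ne'
  refine ⟨Circle.exp (2 * Real.pi / N), fun n hn hnN => ?_⟩
  have hc : ((Circle.exp (2 * Real.pi / N) : Circle) : ℂ) =
      Complex.exp (2 * Real.pi * Complex.I / N) := by
    rw [Circle.coe_exp]
    congr 1
    push_cast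
    ring
  rw [← hc] at hp
  generalize Circle.exp (2 * Real.pi / N) = ω at hp
  set w : ℂ := (ω : ℂ) ^ n with hw
  have h1 : ∀ k ∈ Finset.range N, (((ω ^ k : Circle) : ℂ) ^ n) = w ^ k := by
    intro k _
    rw [Circle.coe_pow, hw, ← zpow_natCast, ← zpow_natCast, ← zpow_mul, ← zpow_mul,
      mul_comm (k : ℤ) n]
  rw [Finset.sum_congr rfl h1]
  have hw1 : w ≠ 1 := by
    intro h
    have := (hp.zpow_eq_one_iff_dvd n).1 h
    exact hn (Int.eq_zero_of_abs_lt_dvd this hnN)
  have hwN : w ^ N = 1 := by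
    rw [hw, ← zpow_natCast, ← zpow_mul, mul_comm n, zpow_mul, zpow_natCast, hp.pow_eq_one, one_zpow]
  rw [geom_sum_eq hw1, hwN, sub_self, zero_div]

theorem crz (UQ : S_UQ) (RN : S_RN) : S_CRZ := by
  intro Q _ B E _ _ G f hgauge e he A _ κ hκ hrange
  -- the right shifts
  choose R hRn hR using RN B E e he
  have hRc : ∀ n, Continuous (R n) := fun n => cont_iso (R n) (hRn n)
  -- the shifts
  choose σ hσb hσ using fun n => UQ B E E e (fun i j => e (i + n) (j + n)) he (shift_sys he n)
  have hσc : ∀ n, Continuous (σ n) := fun n => cont_hom (σ n)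
  -- the gauge automorphisms
  have hΓ : ∀ z : Circle, ∃ Γ : E →⋆ₙₐ[ℂ] E, (∀ x, ‖Γ x‖ = ‖x‖) ∧
      ∀ n : ℤ, ∀ x ∈ (ASpan G f e).topologicalClosure, Γ (R n x) = ((z : ℂ) ^ n) • R n x := by
    intro z
    obtain ⟨γ, hγb, hγ⟩ := hgauge z⁻¹
    obtain ⟨Γ, hΓb, hΓ⟩ := UQ B E E e (tw e z γ) he (tw_sys he z γ hγb)
    refine ⟨Γ, NonUnitalStarAlgHom.norm_map Γ hΓb.1, fun n x hx => ?_⟩
    have h1 : ASpan G f e ≤ LinearMap.eqLocus ((lin Γ) ∘ₗ (R n)) (((z : ℂ) ^ n) • R n) := by
      apply Submodule.span_le.2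
      rintro _ ⟨i, j, q, hq, b, hb, rfl⟩
      show Γ (R n (e i j b)) = ((z : ℂ) ^ n) • R n (e i j b)
      rw [hR, hΓ]
      show ((z : ℂ) ^ (i - (j - n))) • e i (j - n) (γ b) = _
      rw [hγ q b hb, hq, toAdd_ofAdd, map_smul, smul_smul]
      congr 1
      rw [Circle.coe_inv, inv_zpow, ← zpow_neg, ← zpow_add₀ z.coe_ne_zero]
      congr 1
      ring
    have h2 : IsClosed (LinearMap.eqLocus ((lin Γ) ∘ₗ (R n)) (((z : ℂ) ^ n) • R n) : Set E) :=
      isClosed_eq ((cont_hom Γ).comp (hRc n)) ((hRc n).const_smul _)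
    exact Submodule.topologicalClosure_minimal _ h1 h2 hx
  -- the shifts preserve the algebra
  have hpres : ∀ n, ∀ x ∈ (ASpan G f e).topologicalClosure,
      σ n x ∈ (ASpan G f e).topologicalClosure := by
    intro n x hx
    have h1 : ASpan G f e ≤ ((ASpan G f e).topologicalClosure).comap (lin (σ n)) := by
      apply Submodule.span_le.2
      rintro _ ⟨i, j, q, hq, b, hb, rfl⟩
      show σ n (e i j b) ∈ (ASpan G f e).topologicalClosure
      rw [hσ]
      apply Submodule.le_topologicalClosure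
      exact Submodule.subset_span ⟨i + n, j + n, q, by rw [hq]; congr 1; ring, b, hb, rfl⟩
    have h2 : IsClosed (((ASpan G f e).topologicalClosure).comap (lin (σ n)) : Set E) :=
      (Submodule.isClosed_topologicalClosure _).preimage (hσc n)
    exact Submodule.topologicalClosure_minimal _ h1 h2 hx
  have hmem : ∀ a : A, κ a ∈ (ASpan G f e).topologicalClosure := by
    intro a
    have : κ a ∈ Set.range κ := ⟨a, rfl⟩
    rw [hrange] at this
    exact this
  have hα : ∀ n, ∃ α : A →⋆ₙₐ[ℂ] A, ∀ a, κ (α a) = σ n (κ a) := by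
    intro n
    obtain ⟨α, h⟩ := lift_hom ((σ n).comp κ) κ hκ (by
      rintro _ ⟨a, rfl⟩
      rw [hrange]
      exact hpres n _ (hmem a))
    exact ⟨α, h⟩
  choose α hα using hα
  -- identities in `E`
  have hσ0 : ∀ x, σ 0 x = x := by
    intro x
    refine ext_lin he (f := lin (σ 0)) (g := LinearMap.id) (hσc 0) continuous_id ?_ x
    intro i j b
    show σ 0 (e i j b) = e i j b
    rw [hσ]
    simp only [add_zero]
  have hσadd : ∀ m n x, σ (m + n) x = σ m (σ n x) := by
    intro m n x
    refine ext_lin he (f := lin (σ (m + n))) (g := lin (σ m) ∘ₗ lin (σ n)) (hσc _)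
      ((hσc m).comp (hσc n)) ?_ x
    intro i j b
    show σ (m + n) (e i j b) = σ m (σ n (e i j b))
    rw [hσ, hσ, hσ]
    congr 2 <;> ring
  have hR0 : ∀ x, R 0 x = x := by
    intro x
    refine ext_lin he (f := R 0) (g := LinearMap.id) (hRc 0) continuous_id ?_ x
    intro i j b
    show R 0 (e i j b) = e i j b
    rw [hR, sub_zero]
  have hmul : ∀ m n x y, R m x * R n y = R (m + n) (x * σ m y) := by
    intro m n x y
    refine ext_lin he (f := LinearMap.mulRight ℂ (R n y) ∘ₗ R m)
      (g := R (m + n) ∘ₗ LinearMap.mulRight ℂ (σ m y)) ?_ ?_ ?_ x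
    · show Continuous fun x => R m x * R n y
      exact (hRc m).mul continuous_const
    · show Continuous fun x => R (m + n) (x * σ m y)
      exact (hRc _).comp (continuous_id.mul continuous_const)
    intro i l b
    show R m (e i l b) * R n y = R (m + n) (e i l b * σ m y)
    refine ext_lin he (f := LinearMap.mulLeft ℂ (R m (e i l b)) ∘ₗ R n)
      (g := R (m + n) ∘ₗ LinearMap.mulLeft ℂ (e i l b) ∘ₗ lin (σ m)) ?_ ?_ ?_ y
    · show Continuous fun y => R m (e i l b) * R n y
      exact continuous_const.mul (hRc n)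
    · show Continuous fun y => R (m + n) (e i l b * σ m y)
      exact (hRc _).comp (continuous_const.mul (hσc m))
    intro k p c
    show R m (e i l b) * R n (e k p c) = R (m + n) (e i l b * σ m (e k p c))
    rw [hR, hR, hσ]
    by_cases hk : l - m = k
    · have hl : l = k + m := by omega
      rw [hk, he.mul]
      subst hl
      show _ = R (m + n) (e i (k + m) b * e (k + m) (p + m) c)
      rw [he.mul, hR]
      congr 2
      ring
    · have hl : l ≠ k + m := by omega
      rw [he.mul0 _ _ _ _ _ _ hk]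
      show _ = R (m + n) (e i l b * e (k + m) (p + m) c)
      rw [he.mul0 _ _ _ _ _ _ hl, map_zero]
  have hstar : ∀ m x, star (R m x) = R (-m) (σ (-m) (star x)) := by
    intro m x
    let g : E →ₗ[ℂ] E :=
      { toFun := fun x => star (R (-m) (σ (-m) (star x)))
        map_add' := fun x y => by simp only [star_add, map_add]
        map_smul' := fun c x => by
          simp only [star_smul, map_smul, RingHom.id_apply, star_star] }
    have h1 : R m x = g x := by
      refine ext_lin he (f := R m) (g := g) (hRc m) ?_ ?_ x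
      · exact continuous_star.comp ((hRc _).comp ((hσc _).comp continuous_star))
      intro i j b
      show R m (e i j b) = star (R (-m) (σ (-m) (star (e i j b))))
      rw [hR, he.star, hσ]
      show _ = star (R (-m) (e (j + -m) (i + -m) (star b)))
      rw [hR, he.star, star_star]
      congr 2; ring
    rw [h1]
    show star (star (R (-m) (σ (-m) (star x)))) = _
    rw [star_star]
  refine ⟨α, fun n => R n ∘ₗ lin κ, ?_⟩
  exact
    { zero := fun a => hκ (by rw [hα, hσ0])
      add := fun m n a => hκ (by rw [hα, hσadd, hα, hα])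
      mul := fun m n a b => by
        show R m (κ a) * R n (κ b) = R (m + n) (κ (a * α m b))
        rw [hmul, map_mul κ, hα]
      star := fun m a => by
        show star (R m (κ a)) = R (-m) (κ (α (-m) (star a)))
        rw [hstar, hα, map_star κ]
      dense := by
        set T := (⨆ n, LinearMap.range (R n ∘ₗ lin κ)).topologicalClosure with hT
        have hTc : IsClosed (T : Set E) := Submodule.isClosed_topologicalClosure _
        have h1 : ∀ (i l : ℤ) (q : Q), ∀ b ∈ G.fib q, e i l b ∈ T := by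
          intro i l q b hb
          apply Submodule.le_topologicalClosure
          apply Submodule.mem_iSup_of_mem (i - l - Multiplicative.toAdd (f q))
          set n := i - l - Multiplicative.toAdd (f q) with hn
          have h2 : e i (l + n) b ∈ Set.range κ := by
            rw [hrange]
            apply Submodule.le_topologicalClosure
            refine Submodule.subset_span ⟨i, l + n, q, ?_, b, hb, rfl⟩
            have : i - (l + n) = Multiplicative.toAdd (f q) := by omega
            rw [this, ofAdd_toAdd]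
          obtain ⟨a, ha⟩ := h2
          refine ⟨a, ?_⟩
          show R n (κ a) = e i l b
          rw [ha, hR, add_sub_cancel_right]
        have h2 : ∀ (i l : ℤ) (b : B), e i l b ∈ T := by
          intro i l b
          have h3 : (⨆ q, G.fib q) ≤ T.comap (e i l) := iSup_le fun q b hb => h1 i l q b hb
          have h4 : IsClosed (T.comap (e i l) : Set B) :=
            hTc.preimage (cont_iso (e i l) (norm_e he i l))
          have h5 := Submodule.topologicalClosure_minimal _ h3 h4
          rw [G.dense] at h5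
          exact h5 (Submodule.mem_top (x := b))
        rw [← top_le_iff, ← he.dense]
        apply Submodule.topologicalClosure_minimal _ _ hTc
        refine iSup_le fun i => iSup_le fun j => ?_
        rintro _ ⟨b, rfl⟩
        exact h2 i j b
      norm := by
        intro s a h0
        show ‖a 0‖ ≤ ‖∑ n ∈ s, R n (κ (a n))‖
        obtain ⟨N, hN0, hN⟩ : ∃ N : ℕ, 0 < N ∧ ∀ n ∈ s, |n| < N := by
          refine ⟨∑ n ∈ s, n.natAbs + 1, by positivity, fun n hn => ?_⟩
          have h1 : n.natAbs ≤ ∑ n ∈ s, n.natAbs :=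
            Finset.single_le_sum (f := fun n : ℤ => n.natAbs) (fun _ _ => Nat.zero_le _) hn
          have h2 : |n| = (n.natAbs : ℤ) := Int.abs_eq_natAbs n
          omega
        obtain ⟨ζ, hζ⟩ := root_sum hN0
        choose Γ hΓn hΓ using hΓ
        set S := ∑ n ∈ s, R n (κ (a n)) with hS
        have h1 : ∑ k ∈ Finset.range N, Γ (ζ ^ k) S = (N : ℂ) • R 0 (κ (a 0)) := by
          have h2 : ∀ k ∈ Finset.range N, Γ (ζ ^ k) S =
              ∑ n ∈ s, (((ζ ^ k : Circle) : ℂ) ^ n) • R n (κ (a n)) := by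
            intro k _
            rw [hS, map_sum]
            exact Finset.sum_congr rfl fun n _ => hΓ _ n _ (hmem _)
          rw [Finset.sum_congr rfl h2, Finset.sum_comm]
          rw [Finset.sum_eq_single_of_mem 0 h0]
          · rw [← Finset.sum_smul]
            congr 1
            simp
          · intro n hn hn0
            rw [← Finset.sum_smul, hζ n hn0 (hN n hn), zero_smul]
        have h2 : (N : ℝ) * ‖a 0‖ ≤ (N : ℝ) * ‖S‖ := by
          calc (N : ℝ) * ‖a 0‖ = ‖(N : ℂ) • R 0 (κ (a 0))‖ := by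
                rw [norm_smul, hRn, NonUnitalStarAlgHom.norm_map κ hκ]
                simp
            _ = ‖∑ k ∈ Finset.range N, Γ (ζ ^ k) S‖ := by rw [h1]
            _ ≤ ∑ k ∈ Finset.range N, ‖Γ (ζ ^ k) S‖ := norm_sum_le _ _
            _ = (N : ℝ) * ‖S‖ := by
                rw [Finset.sum_congr rfl fun k _ => hΓn (ζ ^ k) S]
                simp
        exact le_of_mul_le_mul_left h2 (by exact_mod_cast hN0) }

end Pool.Agent.Helper3.Uct2
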